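import Pool.Agent.Helper9.LS5.SheetN

/-!
Project LS5, row DIR: Dirichlet's theorem on simultaneous approximation.
-/

set_option autoImplicit false

namespace Pool.Agent.Helper27.LS5

open Pool.Agent.Helper9.LS5

/-- (DIR) -/
theorem DIR : ST_DIR := by
  intro n Q t hQ
  have hQ0 : (0 : ℝ) < Q := by exact_mod_cast hQ
  have hlt : ∀ x : ℝ, ⌊(Q : ℝ) * Int.fract x⌋₊ < Q := by
    intro x
    rw [Nat.floor_lt (mul_nonneg hQ0.le (Int.fract_nonneg x))]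
    calc (Q : ℝ) * Int.fract x < Q * 1 := mul_lt_mul_of_pos_left (Int.fract_lt_one x) hQ0
      _ = Q := mul_one _
  obtain ⟨a, b, hab, h⟩ := Fintype.exists_ne_map_eq_of_card_lt
    (fun (k : Fin (Q ^ n + 1)) (i : Fin n) =>
      (⟨⌊(Q : ℝ) * Int.fract (((k : ℕ) : ℝ) * t i)⌋₊, hlt _⟩ : Fin Q)) (by simp)
  -- the case `a < b`
  have main : ∀ a b : Fin (Q ^ n + 1), a < b →
      (∀ i, ⌊(Q : ℝ) * Int.fract (((a : ℕ) : ℝ) * t i)⌋₊
        = ⌊(Q : ℝ) * Int.fract (((b : ℕ) : ℝ) * t i)⌋₊) →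
      ∃ k : ℕ, 1 ≤ k ∧ k ≤ Q ^ n ∧ ∀ i, ∃ m : ℤ, |k * t i - m| ≤ 1 / (Q : ℝ) := by
    intro a b hab h
    have hab' : (a : ℕ) < b := hab
    have hb := b.2
    refine ⟨(b : ℕ) - a, by omega, by omega, fun i => ?_⟩
    refine ⟨⌊((b : ℕ) : ℝ) * t i⌋ - ⌊((a : ℕ) : ℝ) * t i⌋, ?_⟩
    have e1 : ((((b : ℕ) - (a : ℕ) : ℕ) : ℝ)) * t i
        - ((⌊((b : ℕ) : ℝ) * t i⌋ - ⌊((a : ℕ) : ℝ) * t i⌋ : ℤ) : ℝ)
        = Int.fract (((b : ℕ) : ℝ) * t i) - Int.fract (((a : ℕ) : ℝ) * t i) := by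
      rw [Nat.cast_sub hab'.le, Int.fract, Int.fract]
      push_cast
      ring
    rw [e1]
    have h1 := h i
    have fa := Nat.floor_le (mul_nonneg hQ0.le (Int.fract_nonneg (((a : ℕ) : ℝ) * t i)))
    have fb := Nat.floor_le (mul_nonneg hQ0.le (Int.fract_nonneg (((b : ℕ) : ℝ) * t i)))
    have ga := Nat.lt_floor_add_one ((Q : ℝ) * Int.fract (((a : ℕ) : ℝ) * t i))
    have gb := Nat.lt_floor_add_one ((Q : ℝ) * Int.fract (((b : ℕ) : ℝ) * t i))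
    rw [h1] at fa ga
    rw [le_div_iff₀ hQ0]
    have e2 : |Int.fract (((b : ℕ) : ℝ) * t i) - Int.fract (((a : ℕ) : ℝ) * t i)| * (Q : ℝ)
        = |(Q : ℝ) * Int.fract (((b : ℕ) : ℝ) * t i)
          - (Q : ℝ) * Int.fract (((a : ℕ) : ℝ) * t i)| := by
      rw [← mul_sub, abs_mul, abs_of_pos hQ0, mul_comm]
    rw [e2, abs_le]
    constructor <;> linarith

  rcases lt_or_gt_of_ne hab with hlt' | hlt'
  · exact main a b hlt' fun i => congrArg Fin.val (congrFun h i)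
  · exact main b a hlt' fun i => (congrArg Fin.val (congrFun h i)).symm

end Pool.Agent.Helper27.LS5
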