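import Pool.Agent.Helper9.LS5.SheetC
import Pool.Agent.Helper47.LS5.REGS

/-!
Project LS5 (MP_9a3c31_nt), row CPTS: concentration, the theorem on points.
-/

set_option autoImplicit false

open Filter Topology NumberField

namespace Pool.Agent.Helper27.LS5

open Pool.Agent.Helper42.LS Pool.Agent.Helper42.LK Pool.Agent.Helper54.LM Pool.Agent.Helper9.LS5
  Pool.Agent.Helper47.LS5

theorem prs_nonneg {ι : Type} (V : Finset ι) (w : ι → ℝ) (r : ι → ι → Prop)
    (hw : ∀ v ∈ V, 0 ≤ w v) : 0 ≤ prs V w r := by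
  unfold prs
  refine Finset.sum_nonneg fun v hv => Finset.sum_nonneg fun v' hv' => ?_
  split_ifs
  · exact mul_nonneg (hw v hv) (hw v' hv')
  · exact le_rfl

theorem rho_nonneg {K : Type} [Field K] [NumberField K] (A B : K) {m : ℕ} (x : Fin m → K)
    (T : Finset (FinitePlace K)) (hd : ∀ v : FinitePlace K, 0 ≤ dl (fun z : K => v z) A B) :
    0 ≤ rho A B x T := by
  unfold rho
  have h1 := prs_nonneg T (fun v => dl (fun z : K => v z) A B) (Sm A B x) (fun v _ => hd v)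
  have h2 := sq_nonneg (arw A B)
  exact div_nonneg (by linarith) (sq_nonneg _)

/-- lower bound for the trace from a lower bound for the determinant -/
theorem CPTS_trace {m : ℕ} (hm : 1 ≤ m) {R : Matrix (Fin m) (Fin m) ℝ} (hs : R.IsSymm)
    (hpsd : R.PosSemidef) {S : Matrix (Fin m) (Fin m) ℤ}
    (hS : (S.map (fun z : ℤ => (z : ℝ))).PosDef) {c H y E : ℝ} (hc : 0 ≤ c) (hH : 0 ≤ H)
    (hy : 0 ≤ y) (h : c * H ^ m * y ^ E ≤ R.det) :
    (m : ℝ) * c ^ (1 / (m : ℝ)) * H * y ^ (E / m) ≤ ∑ i, ∑ j, (S i j : ℝ) * R i j := by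
  have hm0 : (0 : ℝ) < m := by exact_mod_cast hm
  have h3 := FINAL_trace hm hS.posSemidef hpsd
  have h4 : (S.map (fun z : ℤ => (z : ℝ)) * R).trace = ∑ i, ∑ j, (S i j : ℝ) * R i j := by
    rw [Matrix.trace]
    refine Finset.sum_congr rfl fun i _ => ?_
    rw [Matrix.diag_apply, Matrix.mul_apply]
    refine Finset.sum_congr rfl fun j _ => ?_
    rw [Matrix.map_apply]
    have h5 := congrFun (congrFun hs i) j
    rw [Matrix.transpose_apply] at h5
    rw [h5]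
  rw [h4] at h3
  refine le_trans ?_ h3
  have h5 := FINAL_int hS
  have h7 : 0 ≤ R.det := hpsd.det_nonneg
  have hyE : 0 ≤ y ^ E := Real.rpow_nonneg hy _
  have h6 : (c * H ^ m * y ^ E) ^ (1 / (m : ℝ)) ≤
      ((S.map (fun z : ℤ => (z : ℝ))).det * R.det) ^ (1 / (m : ℝ)) := by
    refine Real.rpow_le_rpow (by positivity) ?_ (by positivity)
    nlinarith
  have h8 : (c * H ^ m * y ^ E) ^ (1 / (m : ℝ)) = c ^ (1 / (m : ℝ)) * H * y ^ (E / m) := by
    rw [Real.mul_rpow (by positivity) hyE, Real.mul_rpow hc (pow_nonneg hH m),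
      ← Real.rpow_natCast H m, ← Real.rpow_mul hH, mul_one_div_cancel hm0.ne', Real.rpow_one,
      ← Real.rpow_mul hy, mul_one_div]
  calc (m : ℝ) * c ^ (1 / (m : ℝ)) * H * y ^ (E / m)
      = m * (c * H ^ m * y ^ E) ^ (1 / (m : ℝ)) := by rw [h8]; ring
    _ ≤ _ := mul_le_mul_of_nonneg_left h6 hm0.le

/-- **CPTS** -/
theorem CPTS (hGL : ST_LGL) (hCH : ST_LCH) (hC : ST_CONC) (hK : ST_CMK) (hDF : ST_KDF) :
    ST_CPTS := by
  intro K _ _ _ m hm
  obtain ⟨c₁, hc₁, h1⟩ := hC K m hm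
  obtain ⟨C, hC0, h2⟩ := hK K
  have hm0 : (0 : ℝ) < m := by exact_mod_cast hm
  obtain ⟨E, hE⟩ : ∃ E : ℝ, E = (2 * (m : ℝ) + 6) / 3 := ⟨_, rfl⟩
  have hE0 : 0 < E := by rw [hE]; positivity
  have hEm : (2 * (m : ℝ) + 6) / (3 * m) = E / m := by
    rw [hE, div_div]
  obtain ⟨c₂, hc₂d⟩ : ∃ c₂ : ℝ, c₂ = c₁ * C ^ (-E) := ⟨_, rfl⟩
  have hc₂ : 0 < c₂ := by rw [hc₂d]; positivity
  refine ⟨min (min c₁ c₂) (min (m * c₁ ^ (1 / (m : ℝ))) (m * c₂ ^ (1 / (m : ℝ)))), by positivity,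
    ?_⟩
  obtain ⟨c, hcd⟩ : ∃ c : ℝ, c = min (min c₁ c₂)
    (min (m * c₁ ^ (1 / (m : ℝ))) (m * c₂ ^ (1 / (m : ℝ)))) := ⟨_, rfl⟩
  rw [← hcd]
  have hcc₁ : c ≤ c₁ := by rw [hcd]; exact (min_le_left _ _).trans (min_le_left _ _)
  have hcc₂ : c ≤ c₂ := by rw [hcd]; exact (min_le_left _ _).trans (min_le_right _ _)
  have hcc₃ : c ≤ m * c₁ ^ (1 / (m : ℝ)) := by
    rw [hcd]; exact (min_le_right _ _).trans (min_le_left _ _)
  have hcc₄ : c ≤ m * c₂ ^ (1 / (m : ℝ)) := by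
    rw [hcd]; exact (min_le_right _ _).trans (min_le_right _ _)
  intro A B hD P hP
  obtain ⟨X, Y, hL, hX, R, hR, hcan⟩ := REGS_gram hGL hCH hD P hP
  have hd : ∀ v : FinitePlace K, 0 ≤ dl (fun z : K => v z) A B :=
    fun v => ((hDF K A B hD).2.1 v).1
  have hH : 0 ≤ HK A B := by
    unfold HK LD
    exact add_nonneg (finsum_nonneg fun v => hd v) (Height.zero_le_logHeight₁ _)
  have hH1 : 0 < 1 + HK A B := by linarith
  have hpsd : R.PosSemidef := by
    refine LREG_psd hR.1 fun k => ?_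
    refine ge_of_tendsto' (hR.2 k) fun n => div_nonneg ?_ (by positivity)
    rcases (2 ^ n • ∑ i, k i • P i : (ECK A B).toAffine.Point) with _ | ⟨x, y, h⟩
    · exact le_rfl
    · exact Height.zero_le_logHeight₁ _
  have hx : (fun i => X (Pi.single i 1)) = fun i => xco (P i) := funext hX
  rw [hEm, ← hE]
  have hdet : ∀ T : Finset (FinitePlace K), c₁ * (1 + HK A B) ^ m *
      rho A B (fun i => xco (P i)) T ^ E ≤ R.det := by
    intro T
    have h3 := h1 A B hD X Y R hL hR.1 hcan T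
    rw [hx, ← hE] at h3
    exact h3
  have hmK : (0 : ℝ) < 1 + (mK A B : ℝ) := by positivity
  have hdet2 : c₂ * (1 + HK A B) ^ m * ((1 + (mK A B : ℝ))⁻¹) ^ E ≤ R.det := by
    obtain ⟨T, hT⟩ := h2 A B hD m (fun i => xco (P i))
    refine le_trans ?_ (hdet T)
    have h3 : (C * (1 + (mK A B : ℝ)))⁻¹ ≤ rho A B (fun i => xco (P i)) T := by
      rw [inv_le_iff_one_le_mul₀ (by positivity)]
      linarith
    have h4 : ((C * (1 + (mK A B : ℝ)))⁻¹) ^ E ≤ rho A B (fun i => xco (P i)) T ^ E :=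
      Real.rpow_le_rpow (by positivity) h3 hE0.le
    have h5 : ((C * (1 + (mK A B : ℝ)))⁻¹) ^ E = C ^ (-E) * ((1 + (mK A B : ℝ))⁻¹) ^ E := by
      rw [mul_inv, Real.mul_rpow (by positivity) (by positivity), Real.inv_rpow hC0.le,
        ← Real.rpow_neg hC0.le]
    calc c₂ * (1 + HK A B) ^ m * ((1 + (mK A B : ℝ))⁻¹) ^ E
        = c₁ * (1 + HK A B) ^ m * ((C * (1 + (mK A B : ℝ)))⁻¹) ^ E := by rw [h5, hc₂d]; ring
      _ ≤ _ := mul_le_mul_of_nonneg_left h4 (by positivity)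
  have hinv : ∀ s : ℝ, (1 + (mK A B : ℝ)) ^ (-s) = ((1 + (mK A B : ℝ))⁻¹) ^ s := by
    intro s
    rw [Real.rpow_neg hmK.le, Real.inv_rpow hmK.le]
  refine ⟨R, hR, fun T => ?_, ?_, ?_⟩
  · have hr := rho_nonneg A B (fun i => xco (P i)) T hd
    refine ⟨?_, fun S hS => ?_⟩
    · refine le_trans ?_ (hdet T)
      refine mul_le_mul_of_nonneg_right ?_ (Real.rpow_nonneg hr _)
      exact mul_le_mul_of_nonneg_right hcc₁ (by positivity)
    · refine le_trans ?_ (CPTS_trace hm hR.1 hpsd hS hc₁.le hH1.le hr (hdet T))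
      refine mul_le_mul_of_nonneg_right ?_ (Real.rpow_nonneg hr _)
      exact mul_le_mul_of_nonneg_right hcc₃ hH1.le
  · rw [hinv]
    refine le_trans ?_ hdet2
    refine mul_le_mul_of_nonneg_right ?_ (by positivity)
    exact mul_le_mul_of_nonneg_right hcc₂ (by positivity)
  · intro S hS
    rw [hinv]
    refine le_trans ?_ (CPTS_trace hm hR.1 hpsd hS hc₂.le hH1.le (by positivity) hdet2)
    refine mul_le_mul_of_nonneg_right ?_ (by positivity)
    exact mul_le_mul_of_nonneg_right hcc₄ hH1.le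

end Pool.Agent.Helper27.LS5
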