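import Pool.Agent.Helper9.LS5.SheetF
import Pool.Agent.Helper9.MTK.Fin

/-!
Project LS5, row FIN: the final theorem.
-/

set_option autoImplicit false

namespace Pool.Agent.Helper27.LS5

open Filter Finset NumberField Pool.Agent.Helper70.SUB Pool.Agent.Helper77.SUBK
  Pool.Agent.Helper70.SUBL Pool.Agent.Helper70.SUBW Pool.Agent.Helper71.JN Pool.Agent.Helper9.MTK
  Pool.Agent.Helper42.LS Pool.Agent.Helper42.LK Pool.Agent.Helper9.LS5 Height

/-- heights and powers of `exp` -/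
theorem mul_le_exp {M : Type} [Field M] [NumberField M] (z : M) {H A : ℝ}
    (h : logHeight₁ z ≤ A * H) : mulHeight₁ z ≤ Real.exp H ^ A := by
  rw [← Real.exp_mul, mul_comm]
  calc mulHeight₁ z = Real.exp (Real.log (mulHeight₁ z)) := (Real.exp_log (mulHeight₁_pos z)).symm
    _ ≤ Real.exp (A * H) := by
        rw [Real.exp_le_exp, ← logHeight₁_eq_log_mulHeight₁]
        exact h

/-- heights in an extension -/
theorem log_ext {K M : Type} [Field K] [NumberField K] [Field M] [NumberField M] (f : K →+* M)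
    {A : ℕ} (hA : ∀ a : K, mulHeight₁ (f a) ≤ mulHeight₁ a ^ A ∧
      mulHeight₁ a ≤ mulHeight₁ (f a) ^ A) (z : K) : logHeight₁ (f z) ≤ A * logHeight₁ z := by
  rw [logHeight₁_eq_log_mulHeight₁, logHeight₁_eq_log_mulHeight₁, ← Real.log_pow]
  exact Real.log_le_log (mulHeight₁_pos _) (hA z).1

/-- the heights of `x (2 ^ n P)` are not negative -/
theorem can_nonneg {K : Type} [Field K] [NumberField K] {x : ℕ → K} {e : ℝ} (h : IsCanK x e) :
    0 ≤ e := by
  have h1 := h 1 le_rfl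
  rw [Nat.cast_one, one_pow, one_mul] at h1
  exact ge_of_tendsto' h1 fun n => div_nonneg (zero_le_logHeight₁ _) (by positivity)

/-- (FIN) -/
theorem FIN (hSVB : ST_SVB) (hPFX : ST_PFX) (hHC : ST_HC) (hKFP : ST_KFP) (hKSM : ST_KSM)
    (hKDF : ST_KDF) (hHTZ : ST_HTZ) (hSPQ : ST_SPQ) (hSPC : ST_SPC) (hMODQ : ST_MODQ)
    (hARI : ST_ARI) (hCRE : ST_CRE) : ST_FIN := by
  classical
  intro K _ _ G t hG
  by_contra hcon
  push Not at hcon
  choose A B hD x y e hS he h hh q1 q2 hlt using fun n : ℕ => hcon (1 / ((n : ℝ) + 1))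
    (by positivity)
  have he0 : ∀ n, 0 ≤ e n := fun n => can_nonneg (he n)
  have hLD : ∀ n, 0 ≤ LD (A n) (B n) := fun n =>
    finsum_nonneg fun v => ((hKDF K _ _ (hD n)).2.1 v).1
  have hJ : ∀ n, logHeight₁ (jK (A n) (B n)) ≤ HK (A n) (B n) := by
    intro n
    have := hLD n
    unfold HK jK
    linarith
  have hH0 : ∀ n, 0 ≤ HK (A n) (B n) := fun n => (zero_le_logHeight₁ _).trans (hJ n)
  -- the sizes tend to infinity
  have hHt : Tendsto (fun n => HK (A n) (B n)) atTop atTop := by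
    rw [tendsto_atTop]
    intro b
    obtain ⟨c, hc, hc'⟩ := hKSM K b
    filter_upwards [eventually_ge_atTop ⌈(1 + b) / c⌉₊] with n hn
    by_contra hb
    push Not at hb
    have h1 := hc' _ _ (hD n) hb.le _ _ _ (hS n) (he n)
    have h2 := hlt n
    have h3 := hh n
    have h4 : (1 + b) / c ≤ n := (Nat.le_ceil _).trans (by exact_mod_cast hn)
    rw [div_le_iff₀ hc] at h4
    have h5 : (0 : ℝ) < (n : ℝ) + 1 := by positivity
    rw [one_div, inv_mul_eq_div, lt_div_iff₀ h5] at h2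
    have h6 : c * ((n : ℝ) + 1) ≤ (e n + h n) * ((n : ℝ) + 1) :=
      mul_le_mul_of_nonneg_right (by linarith) h5.le
    nlinarith
  have heps : ∀ ε : ℝ, 0 < ε → ∀ᶠ n in atTop, e n + h n ≤ ε * HK (A n) (B n) := by
    intro ε hε
    filter_upwards [hHt.eventually_ge_atTop 1, eventually_ge_atTop ⌈2 / ε⌉₊] with n h1 hn
    have h2 := hlt n
    have h4 : 2 / ε ≤ n := (Nat.le_ceil _).trans (by exact_mod_cast hn)
    rw [div_le_iff₀ hε] at h4
    have h5 : (0 : ℝ) < (n : ℝ) + 1 := by positivity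
    rw [one_div, inv_mul_eq_div, lt_div_iff₀ h5] at h2
    have h6 : (e n + h n) * ((n : ℝ) + 1) ≤ (ε * HK (A n) (B n)) * ((n : ℝ) + 1) := by
      have h7 : 2 * HK (A n) (B n) ≤ n * ε * HK (A n) (B n) :=
        mul_le_mul_of_nonneg_right h4 (by linarith)
      nlinarith
    exact le_of_mul_le_mul_right h6 h5
  -- the field, the primes, the ultrafilter
  obtain ⟨M, _, _, _, ⟨f⟩⟩ := exists_gal K
  obtain ⟨S, hSp, hSG⟩ := (hSVB K).2.2.2.2.2.2.2.2.2.2.2 G hG
  have hSf : ∀ g ∈ G, SV S (f (g : K)) := fun g hg =>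
    ((hSVB K).2.2.2.2.2.2.2.2.2.2.1 M f S _).2 (hSG g hg)
  obtain ⟨P⟩ := hPFX M S hSp
  obtain ⟨A0, hA1, hA0⟩ := hHC K M f
  have hle : ((hyperfilter ℕ : Ultrafilter ℕ) : Filter ℕ) ≤ atTop := by
    rw [← Nat.cofinite_eq_atTop]
    exact hyperfilter_le_cofinite
  obtain ⟨φ, hφ⟩ : ∃ φ : Ultrafilter ℕ, φ = hyperfilter ℕ := ⟨_, rfl⟩
  rw [← hφ] at hle
  have hHφ : Tendsto (fun n => HK (A n) (B n)) (φ : Filter ℕ) atTop := hHt.mono_left hle
  obtain ⟨X, hX⟩ : ∃ X : ℕ → ℝ, X = fun n => Real.exp (HK (A n) (B n)) := ⟨_, rfl⟩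
  have hXt : Tendsto X (φ : Filter ℕ) atTop := by
    rw [hX]
    exact Real.tendsto_exp_atTop.comp hHφ
  have hXl : ∀ n, Real.log (X n) = HK (A n) (B n) := fun n => by rw [hX]; exact Real.log_exp _
  have hall : ∀ j, dsc (A j) (B j) ≠ 0 ∧ GSeq (0 : K) (A j) (B j) (x j) (y j) ∧
      IsCanK (x j) (e j) := fun j => ⟨hD j, hS j, he j⟩
  have hee : ∀ ε : ℝ, 0 < ε → ∀ᶠ j in (φ : Filter ℕ), e j ≤ ε * HK (A j) (B j) := by
    intro ε hε
    filter_upwards [hle (heps ε hε)] with j hj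
    linarith [hh j]
  have hhe : ∀ ε : ℝ, 0 < ε → ∀ᶠ j in (φ : Filter ℕ), h j ≤ ε * Real.log (X j) := by
    intro ε hε
    filter_upwards [hle (heps ε hε)] with j hj
    rw [hXl]
    linarith [he0 j]
  by_cases hAB : ∀ᶠ j in (φ : Filter ℕ), A j * B j = 0
  · -- the `j`-invariant is `0` or `1728`
    refine hCRE K M f S φ A B x y e 1 hSp hall hHφ hee le_rfl ?_
    intro ε hε
    filter_upwards [hAB] with j hj
    intro T hT
    have hTe : T = ∅ := by
      refine Finset.eq_empty_of_forall_notMem fun V hV => ?_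
      have h1 := (hT V hV).2
      by_cases hA : A j = 0
      · have e1 : jK (A j) (B j) = 0 := by
          unfold jK
          rw [hA]
          simp
        rw [e1, map_zero, map_zero, Real.log_zero] at h1
        exact lt_irrefl _ h1
      · have hB : B j = 0 := (mul_eq_zero.mp hj).resolve_left hA
        have e1 : jK (A j) (B j) = ((1728 : ℕ) : K) := by
          unfold jK
          rw [hB]
          have h4 : (4 : K) * A j ^ 3 ≠ 0 := mul_ne_zero (by norm_num) (pow_ne_zero _ hA)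
          rw [zero_pow two_ne_zero, mul_zero, add_zero, div_eq_iff h4]
          push_cast
          ring
        rw [e1, map_natCast] at h1
        obtain ⟨V', hV', -⟩ := hKFP M V
        rw [← hV'] at h1
        exact absurd h1 (not_lt.mpr (Real.log_nonpos (V'.nr_nonneg _) (V'.nr_natCast 1728)))
    refine ⟨0, ?_⟩
    rw [hTe, Finset.sum_empty]
    exact mul_nonneg hε.le (hH0 j)
  · have hAB' : ∀ᶠ j in (φ : Filter ℕ), A j * B j ≠ 0 := Ultrafilter.eventually_not.mpr hAB
    obtain ⟨a, b, ha, hb, hb0, hab⟩ := hSPQ K M f S P φ X G t h (fun j => A j ^ 3 / B j ^ 2) hSp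
      hXt hSf hhe (Eventually.of_forall q1)
    obtain ⟨a', b', ha', hb', hb0', hab'⟩ := hSPQ K M f S P φ X G t h
      (fun j => A j * x j 1 / B j) hSp hXt hSf hhe (Eventually.of_forall q2)
    -- numerators and denominators
    have hn1 : Spa P φ X (fun j => 6912 * a j) := (hSPC M S P φ X a b 6912 hSp hXt ha hb).2
    have hd1 : Spa P φ X (fun j => 4 * a j + 27 * b j) :=
      (hSPC M S P φ X _ _ 1 hSp hXt (hSPC M S P φ X a b 4 hSp hXt ha hb).2
        (hSPC M S P φ X b a 27 hSp hXt hb ha).2).1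
    have hn2 : Spa P φ X (fun j => 3 * b' j + 2 * a' j) :=
      (hSPC M S P φ X _ _ 1 hSp hXt (hSPC M S P φ X b' a' 3 hSp hXt hb' ha').2
        (hSPC M S P φ X a' b' 2 hSp hXt ha' hb').2).1
    have hJe : ∀ᶠ j in (φ : Filter ℕ), 4 * a j + 27 * b j ≠ 0 ∧
        f (jK (A j) (B j)) = 6912 * a j / (4 * a j + 27 * b j) := by
      filter_upwards [hAB', hb0, hab] with j h1 h2 h3
      have hB : B j ≠ 0 := right_ne_zero_of_mul h1
      have hfB : f (B j) ≠ 0 := (map_ne_zero f).mpr hB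
      have hDj := hD j
      unfold dsc at hDj
      have hfD : 4 * f (A j) ^ 3 + 27 * f (B j) ^ 2 ≠ 0 := by
        have := (map_ne_zero f).mpr hDj
        rwa [map_add, map_mul, map_mul, map_pow, map_pow, map_ofNat, map_ofNat] at this
      have ea : a j = f (A j) ^ 3 / f (B j) ^ 2 * b j := by
        rw [map_div₀, map_pow, map_pow] at h3
        rw [h3, div_mul_cancel₀ _ h2]
      have ed : 4 * a j + 27 * b j = (4 * f (A j) ^ 3 + 27 * f (B j) ^ 2) * (b j / f (B j) ^ 2) := by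
        rw [ea]
        field_simp
      have hd : 4 * a j + 27 * b j ≠ 0 := by
        rw [ed]
        exact mul_ne_zero hfD (div_ne_zero h2 (pow_ne_zero _ hfB))
      refine ⟨hd, ?_⟩
      rw [eq_div_iff hd, ed, ea]
      have ej : f (jK (A j) (B j)) = 6912 * f (A j) ^ 3 / (4 * f (A j) ^ 3 + 27 * f (B j) ^ 2) := by
        unfold jK
        rw [map_div₀]
        simp only [map_mul, map_add, map_pow, map_ofNat]
      rw [ej, ← mul_assoc, div_mul_cancel₀ _ hfD]
      field_simp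
    have hZe : ∀ᶠ j in (φ : Filter ℕ),
        f (zz (A j) (B j) (x j 1)) = (3 * b' j + 2 * a' j) / b' j := by
      filter_upwards [hAB', hb0', hab'] with j h1 h2 h3
      have hB : B j ≠ 0 := right_ne_zero_of_mul h1
      have hfB : f (B j) ≠ 0 := (map_ne_zero f).mpr hB
      rw [map_div₀, map_mul] at h3
      have e1 : (3 * b' j + 2 * a' j) / b' j = 3 + 2 * (a' j / b' j) := by
        field_simp
      rw [e1, ← h3]
      unfold zz
      rw [map_add, map_div₀, map_mul, map_mul, map_ofNat, map_ofNat]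
      ring
    -- heights
    obtain ⟨C, hC0, hC⟩ := hHTZ K
    have hht1 : ∀ᶠ j in (φ : Filter ℕ),
        mulHeight₁ (6912 * a j / (4 * a j + 27 * b j)) ≤ X j ^ (A0 : ℝ) := by
      filter_upwards [hJe] with j h1
      rw [← h1.2, hX]
      refine mul_le_exp _ ((log_ext f hA0 _).trans ?_)
      exact mul_le_mul_of_nonneg_left (hJ j) (Nat.cast_nonneg _)
    have hht2 : ∀ᶠ j in (φ : Filter ℕ),
        mulHeight₁ ((3 * b' j + 2 * a' j) / b' j) ≤ X j ^ ((A0 : ℝ) * (3 * C)) := by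
      filter_upwards [hZe, hAB', hee 1 one_pos, hHφ.eventually_ge_atTop 1] with j h1 h2 h3 h4
      rw [← h1, hX]
      refine mul_le_exp _ ((log_ext f hA0 _).trans ?_)
      rw [mul_assoc]
      refine mul_le_mul_of_nonneg_left ?_ (Nat.cast_nonneg _)
      refine (hC _ _ (hD j) (right_ne_zero_of_mul h2) _ _ _ (hS j) (he j)).trans ?_
      rw [mul_comm 3 C, mul_assoc]
      refine mul_le_mul_of_nonneg_left ?_ hC0
      linarith
    obtain ⟨n1, m1, hn1', hm1', hm10, hq1⟩ := hMODQ M S P φ X _ _ _ hSp hXt hn1 hd1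
      (by filter_upwards [hJe] with j h1 using h1.1) hht1
    obtain ⟨n2, m2, hn2', hm2', hm20, hq2⟩ := hMODQ M S P φ X _ _ _ hSp hXt hn2 hb' hb0' hht2
    obtain ⟨Dn, hDn, hAR⟩ := hARI M S P φ X n1 m1 n2 m2 hSp hXt hn1' hm1' hn2' hm2' hm10 hm20
    refine hCRE K M f S φ A B x y e Dn hSp hall hHφ hee hDn ?_
    intro ε hε
    filter_upwards [hAR ε hε, hJe, hZe, hq1, hq2] with j h1 h2 h3 h4 h5
    rw [h2.2, h3, h4, h5, ← hXl]
    exact h1

end Pool.Agent.Helper27.LS5
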