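import Pool.Agent.Helper9.LS5.SheetF

/-!
Project LS5, rows SPC and SPQ.
-/

set_option autoImplicit false

namespace Pool.Agent.Helper27.LS5

open Filter Finset Pool.Agent.Helper70.SUB Pool.Agent.Helper77.SUBK Pool.Agent.Helper70.SUBL
  Pool.Agent.Helper70.SUBW Pool.Agent.Helper71.JN Pool.Agent.Helper9.MTK Pool.Agent.Helper9.LS5
  Height

/-- (SPC) -/
theorem SPC (hSLW : ST_SLW) (hSPW : ST_SPW) : ST_SPC := by
  classical
  intro M _ _ _ S P φ X a b c hS hX ha hb
  obtain ⟨s1, s2, -⟩ := hSLW M S P φ X hS hX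
  obtain ⟨-, -, -, -, -, -, -, -, -, -, -, p12, p13⟩ := hSPW M S P φ X hS hX
  obtain ⟨t, d, u, hd, hu, h⟩ := ha
  obtain ⟨t', d', u', hd', hu', h'⟩ := hb
  constructor
  · refine (p12 (fun j => ∑ i : Fin t ⊕ Fin t', Sum.elim d d' i j * Sum.elim u u' i j) _
      ?_).2 (p13 (Fin t ⊕ Fin t') (Sum.elim d d') (Sum.elim u u') ?_ ?_)
    · filter_upwards [h, h'] with j h1 h2
      rw [Fintype.sum_sum_type]
      simp only [Sum.elim_inl, Sum.elim_inr]
      rw [h1, h2]
    · rintro (i | i)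
      · exact hd i
      · exact hd' i
    · rintro (i | i)
      · exact hu i
      · exact hu' i
  · refine (p12 (fun j => ∑ i : Fin t, (c * d i j) * u i j) _ ?_).2
      (p13 (Fin t) (fun i j => c * d i j) u ?_ hu)
    · filter_upwards [h] with j h1
      rw [← h1, Finset.mul_sum]
      exact Finset.sum_congr rfl fun i _ => mul_assoc _ _ _
    · exact fun i => (s2 (fun _ => c) (d i) (s1 c) (hd i)).2

/-- (SPQ) -/
theorem SPQ (hHSL : ST_HSL) (hHC : ST_HC) : ST_SPQ := by
  classical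
  intro K M _ _ _ _ _ f S P φ X G t h z hS hX hG hh hz
  have hex : ∀ j, ∃ (c c' : Fin t → K) (g g' : Fin t → Kˣ), Qt G t (h j) (z j) →
      ((∀ i, g i ∈ G ∧ g' i ∈ G ∧ logHeight₁ (c i) ≤ h j ∧ logHeight₁ (c' i) ≤ h j) ∧
        ∑ i, c' i * (g' i : K) ≠ 0 ∧
        z j * ∑ i, c' i * (g' i : K) = ∑ i, c i * (g i : K)) := by
    intro j
    by_cases hq : Qt G t (h j) (z j)
    · obtain ⟨c, c', g, g', h1⟩ := hq
      exact ⟨c, c', g, g', fun _ => h1⟩
    · exact ⟨0, 0, 1, 1, fun h => absurd h hq⟩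
  choose c c' g g' hcg using hex
  obtain ⟨A, hA, hAh⟩ := hHC K M f
  have hA0 : (0 : ℝ) < A := by exact_mod_cast hA
  have hslw : ∀ d : ℕ → K, (∀ᶠ j in (φ : Filter ℕ), logHeight₁ (d j) ≤ h j) →
      Slw P φ X (fun j => f (d j)) := by
    intro d hd
    rw [hHSL M S P φ X hS hX]
    intro ε hε
    filter_upwards [hd, hh (ε / A) (by positivity), hX.eventually_gt_atTop 0] with j h1 h2 h3
    have h0 : 0 < mulHeight₁ (d j) := lt_of_lt_of_le one_pos (one_le_mulHeight₁ _)
    have h4 : mulHeight₁ (d j) ≤ X j ^ (ε / A) := by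
      rw [← Real.log_le_log_iff h0 (by positivity), Real.log_rpow h3]
      rw [logHeight₁_eq_log_mulHeight₁] at h1
      exact h1.trans h2
    calc mulHeight₁ (f (d j)) ≤ mulHeight₁ (d j) ^ A := (hAh _).1
      _ ≤ (X j ^ (ε / A)) ^ A := pow_le_pow_left₀ h0.le h4 _
      _ = X j ^ ε := by
          rw [← Real.rpow_natCast, ← Real.rpow_mul h3.le]
          congr 1
          field_simp
  have hQ : ∀ᶠ j in (φ : Filter ℕ), (∀ i, g j i ∈ G ∧ g' j i ∈ G ∧ logHeight₁ (c j i) ≤ h j ∧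
      logHeight₁ (c' j i) ≤ h j) ∧ ∑ i, c' j i * (g' j i : K) ≠ 0 ∧
        z j * ∑ i, c' j i * (g' j i : K) = ∑ i, c j i * (g j i : K) := by
    filter_upwards [hz] with j hj
    exact hcg j hj
  refine ⟨fun j => ∑ i, f (c j i) * f (g j i : K), fun j => ∑ i, f (c' j i) * f (g' j i : K),
    ⟨t, fun i j => f (c j i), fun i j => f (g j i : K), ?_, ?_, Eventually.of_forall fun _ => rfl⟩,
    ⟨t, fun i j => f (c' j i), fun i j => f (g' j i : K), ?_, ?_,
      Eventually.of_forall fun _ => rfl⟩, ?_, ?_⟩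
  · intro i
    refine hslw (fun j => c j i) ?_
    filter_upwards [hQ] with j hj
    exact (hj.1 i).2.2.1
  · intro i
    filter_upwards [hQ] with j hj
    exact hG _ (hj.1 i).1
  · intro i
    refine hslw (fun j => c' j i) ?_
    filter_upwards [hQ] with j hj
    exact (hj.1 i).2.2.2
  · intro i
    filter_upwards [hQ] with j hj
    exact hG _ (hj.1 i).2.1
  · filter_upwards [hQ] with j hj
    have e1 : ∑ i, f (c' j i) * f (g' j i : K) = f (∑ i, c' j i * (g' j i : K)) := by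
      rw [map_sum]
      exact Finset.sum_congr rfl fun i _ => (map_mul _ _ _).symm
    rw [e1]
    exact (map_ne_zero f).mpr hj.2.1
  · filter_upwards [hQ] with j hj
    have e1 : ∑ i, f (c' j i) * f (g' j i : K) = f (∑ i, c' j i * (g' j i : K)) := by
      rw [map_sum]
      exact Finset.sum_congr rfl fun i _ => (map_mul _ _ _).symm
    have e2 : ∑ i, f (c j i) * f (g j i : K) = f (∑ i, c j i * (g j i : K)) := by
      rw [map_sum]
      exact Finset.sum_congr rfl fun i _ => (map_mul _ _ _).symm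
    rw [e1, e2, eq_div_iff ((map_ne_zero f).mpr hj.2.1), ← map_mul, hj.2.2]

end Pool.Agent.Helper27.LS5
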