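import Pool.Agent.Helper9.MTK.Asm
import Pool.Agent.Helper71.JN.AsmA
import Pool.Agent.Helper42.LK.All
import Pool.Agent.Helper20.LS5.GCDC
import Pool.Agent.Helper20.LS5.GCDA
import Pool.Agent.Helper15.LS5.FAC
import Pool.Agent.Helper15.LS5.HFP
import Pool.Agent.Helper15.LS5.POS
import Pool.Agent.Helper15.LS5.ZIM
import Pool.Agent.Helper67.LS5.VAL
import Pool.Agent.Helper67.LS5.CRE
import Pool.Agent.Helper97.LS5.BCH
import Pool.Agent.Helper9.LS5.MODQ
import Pool.Agent.Helper47.LS5.REP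
import Pool.Agent.Helper47.LS5.ARI
import Pool.Agent.Helper99.LS5.KPM2
import Pool.Agent.Helper99.LS5.KLB2
import Pool.Agent.Helper99.LS5.KMT2
import Pool.Agent.Helper27.LS5.SPQ
import Pool.Agent.Helper27.LS5.DIR
import Pool.Agent.Helper27.LS5.FIN

/-! Assembly of project LS5. -/

set_option autoImplicit false

namespace Pool.Agent.Helper27.LS5

open Pool.Agent.Helper70.SUB Pool.Agent.Helper70.SUBL Pool.Agent.Helper77.SUBK
  Pool.Agent.Helper70.SUBW Pool.Agent.Helper71.JN Pool.Agent.Helper9.MTK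
  Pool.Agent.Helper42.LS Pool.Agent.Helper42.LK Pool.Agent.Helper9.LS5

theorem l_slw : ST_SLW := Pool.Agent.Helper70.SUBW.w_slw

theorem l_gcda : ST_GCDA := Pool.Agent.Helper20.LS5.GCDA
theorem l_gcdc : ST_GCDC :=
  Pool.Agent.Helper20.LS5.GCDC st_KMK l_gcda j_osr j_omg Pool.Agent.Helper15.LS5.HFP
theorem l_modq : ST_MODQ :=
  Pool.Agent.Helper9.LS5.MODQ l_slw w_spw k_svb st_HSL st_HBM
    (st_INDK l_slw k_svb st_HSL st_HBM w_rel)
theorem l_rep : ST_REP := Pool.Agent.Helper47.LS5.REP j_mong j_ssfx j_rdx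
theorem l_ari : ST_ARI :=
  Pool.Agent.Helper47.LS5.ARI l_rep Pool.Agent.Helper15.LS5.FAC Pool.Agent.Helper67.LS5.VAL
    (Pool.Agent.Helper15.LS5.SLS st_HSL) Pool.Agent.Helper15.LS5.POS l_gcdc j_omg
theorem l_klb2 : ST_KLB2 :=
  Pool.Agent.Helper99.LS5.KLB2 st_KPA st_KPD st_PI st_KPG st_KAD st_KMN st_KSC
theorem l_kmt2 : ST_KMT2 :=
  Pool.Agent.Helper99.LS5.KMT2 l_klb2 kall_LS st_KGO kall_CX st_KPOT kall_DF st_KFP
theorem l_cre : ST_CRE :=
  Pool.Agent.Helper67.LS5.CRE l_kmt2 Pool.Agent.Helper27.LS5.DIR Pool.Agent.Helper97.LS5.BCH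
theorem l_htz : ST_HTZ :=
  Pool.Agent.Helper15.LS5.HTZ Pool.Agent.Helper15.LS5.ZIM kall_RM kall_DF st_KSC
theorem l_spq : ST_SPQ := SPQ st_HSL st_HC
theorem l_spc : ST_SPC := SPC l_slw w_spw

/-- the lower bound for the canonical height -/
theorem l_fin : ST_FIN :=
  FIN k_svb k_pfx st_HC st_KFP kall_SM kall_DF l_htz l_spq l_spc l_modq l_ari l_cre

end Pool.Agent.Helper27.LS5
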