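import Pool.Agent.Helper27.LS5.FIN
import Pool.Agent.Helper66.LS5.FINLa

/-!
Project LS5, sheet R, row FINL: the final theorem for several points.
-/

set_option autoImplicit false

namespace Pool.Agent.Helper27.LS5

open Filter Finset NumberField Pool.Agent.Helper70.SUB Pool.Agent.Helper77.SUBK
  Pool.Agent.Helper70.SUBL Pool.Agent.Helper70.SUBW Pool.Agent.Helper71.JN Pool.Agent.Helper9.MTK
  Pool.Agent.Helper42.LS Pool.Agent.Helper42.LK Pool.Agent.Helper9.LS5 Pool.Agent.Helper54.LM Height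

/-- one sparse point of height `O (HK)`: almost all components are close to rational numbers with a
fixed denominator -/
theorem exD (hHC : ST_HC) (hKFP : ST_KFP) (hKDF : ST_KDF) (hHTZ : ST_HTZ) (hSPQ : ST_SPQ)
    (hSPC : ST_SPC) (hMODQ : ST_MODQ) (hARI : ST_ARI) (K M : Type) [Field K] [NumberField K]
    [Field M] [NumberField M] [IsGalois ℚ M] (f : K →+* M) (S : Finset ℕ) (P : PF S M)
    (φ : Ultrafilter ℕ) (G : Subgroup Kˣ) (t : ℕ) (A B : ℕ → K) (x y : ℕ → ℕ → K) (e h : ℕ → ℝ)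
    (Ce : ℝ) (hSp : ∀ p ∈ S, p.Prime) (hSf : ∀ g ∈ G, SV S (f (g : K)))
    (hD : ∀ n, dsc (A n) (B n) ≠ 0) (hS : ∀ n, GSeq (0 : K) (A n) (B n) (x n) (y n))
    (he : ∀ n, IsCanK (x n) (e n)) (hHφ : Tendsto (fun n => HK (A n) (B n)) (φ : Filter ℕ) atTop)
    (hCe : ∀ᶠ j in (φ : Filter ℕ), e j ≤ Ce * HK (A j) (B j))
    (hhe' : ∀ ε : ℝ, 0 < ε → ∀ᶠ j in (φ : Filter ℕ), h j ≤ ε * HK (A j) (B j))
    (q1 : ∀ n, Qt G t (h n) (A n ^ 3 / B n ^ 2)) (q2 : ∀ n, Qt G t (h n) (A n * x n 1 / B n)) :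
    ∃ D : ℕ, 1 ≤ D ∧ ∀ ε : ℝ, 0 < ε → ∀ᶠ j in (φ : Filter ℕ),
      ∀ T : Finset (FinitePlace M), (∀ V ∈ T, Aw S V ∧ 0 < Real.log (V (f (jK (A j) (B j))))) →
        ∃ m : FinitePlace M → ℤ, ∑ V ∈ T,
          |D * (12 * aV V (f (jK (A j) (B j))) (f (zz (A j) (B j) (x j 1)))) -
            m V * Real.log (V (f (jK (A j) (B j))))| ≤ ε * HK (A j) (B j) := by
  classical
  have hLD : ∀ n, 0 ≤ LD (A n) (B n) := fun n =>
    finsum_nonneg fun v => ((hKDF K _ _ (hD n)).2.1 v).1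
  have hJ : ∀ n, logHeight₁ (jK (A n) (B n)) ≤ HK (A n) (B n) := by
    intro n
    have := hLD n
    unfold HK jK
    linarith
  have hH0 : ∀ n, 0 ≤ HK (A n) (B n) := fun n => (zero_le_logHeight₁ _).trans (hJ n)
  obtain ⟨A0, hA1, hA0⟩ := hHC K M f
  obtain ⟨X, hX⟩ : ∃ X : ℕ → ℝ, X = fun n => Real.exp (HK (A n) (B n)) := ⟨_, rfl⟩
  have hXt : Tendsto X (φ : Filter ℕ) atTop := by
    rw [hX]
    exact Real.tendsto_exp_atTop.comp hHφ
  have hXl : ∀ n, Real.log (X n) = HK (A n) (B n) := fun n => by rw [hX]; exact Real.log_exp _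
  have hhe : ∀ ε : ℝ, 0 < ε → ∀ᶠ j in (φ : Filter ℕ), h j ≤ ε * Real.log (X j) := by
    intro ε hε
    filter_upwards [hhe' ε hε] with j hj
    rw [hXl]
    exact hj
  by_cases hAB : ∀ᶠ j in (φ : Filter ℕ), A j * B j = 0
  · -- the `j`-invariant is `0` or `1728`
    refine ⟨1, le_rfl, ?_⟩
    intro ε hε
    filter_upwards [hAB] with j hj
    intro T hT
    have hTe : T = ∅ := by
      refine Finset.eq_empty_of_forall_notMem fun V hV => ?_
      have h1 := (hT V hV).2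
      by_cases hA : A j = 0
      · have e1 : jK (A j) (B j) = 0 := by
          unfold jK
          rw [hA]
          simp
        rw [e1, map_zero, map_zero, Real.log_zero] at h1
        exact lt_irrefl _ h1
      · have hB : B j = 0 := (mul_eq_zero.mp hj).resolve_left hA
        have e1 : jK (A j) (B j) = ((1728 : ℕ) : K) := by
          unfold jK
          rw [hB]
          have h4 : (4 : K) * A j ^ 3 ≠ 0 := mul_ne_zero (by norm_num) (pow_ne_zero _ hA)
          rw [zero_pow two_ne_zero, mul_zero, add_zero, div_eq_iff h4]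
          push_cast
          ring
        rw [e1, map_natCast] at h1
        obtain ⟨V', hV', -⟩ := hKFP M V
        rw [← hV'] at h1
        exact absurd h1 (not_lt.mpr (Real.log_nonpos (V'.nr_nonneg _) (V'.nr_natCast 1728)))
    refine ⟨0, ?_⟩
    rw [hTe, Finset.sum_empty]
    exact mul_nonneg hε.le (hH0 j)
  · have hAB' : ∀ᶠ j in (φ : Filter ℕ), A j * B j ≠ 0 := Ultrafilter.eventually_not.mpr hAB
    obtain ⟨a, b, ha, hb, hb0, hab⟩ := hSPQ K M f S P φ X G t h (fun j => A j ^ 3 / B j ^ 2) hSp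
      hXt hSf hhe (Eventually.of_forall q1)
    obtain ⟨a', b', ha', hb', hb0', hab'⟩ := hSPQ K M f S P φ X G t h
      (fun j => A j * x j 1 / B j) hSp hXt hSf hhe (Eventually.of_forall q2)
    -- numerators and denominators
    have hn1 : Spa P φ X (fun j => 6912 * a j) := (hSPC M S P φ X a b 6912 hSp hXt ha hb).2
    have hd1 : Spa P φ X (fun j => 4 * a j + 27 * b j) :=
      (hSPC M S P φ X _ _ 1 hSp hXt (hSPC M S P φ X a b 4 hSp hXt ha hb).2
        (hSPC M S P φ X b a 27 hSp hXt hb ha).2).1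
    have hn2 : Spa P φ X (fun j => 3 * b' j + 2 * a' j) :=
      (hSPC M S P φ X _ _ 1 hSp hXt (hSPC M S P φ X b' a' 3 hSp hXt hb' ha').2
        (hSPC M S P φ X a' b' 2 hSp hXt ha' hb').2).1
    have hJe : ∀ᶠ j in (φ : Filter ℕ), 4 * a j + 27 * b j ≠ 0 ∧
        f (jK (A j) (B j)) = 6912 * a j / (4 * a j + 27 * b j) := by
      filter_upwards [hAB', hb0, hab] with j h1 h2 h3
      have hB : B j ≠ 0 := right_ne_zero_of_mul h1
      have hfB : f (B j) ≠ 0 := (map_ne_zero f).mpr hB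
      have hDj := hD j
      unfold dsc at hDj
      have hfD : 4 * f (A j) ^ 3 + 27 * f (B j) ^ 2 ≠ 0 := by
        have := (map_ne_zero f).mpr hDj
        rwa [map_add, map_mul, map_mul, map_pow, map_pow, map_ofNat, map_ofNat] at this
      have ea : a j = f (A j) ^ 3 / f (B j) ^ 2 * b j := by
        rw [map_div₀, map_pow, map_pow] at h3
        rw [h3, div_mul_cancel₀ _ h2]
      have ed : 4 * a j + 27 * b j = (4 * f (A j) ^ 3 + 27 * f (B j) ^ 2) * (b j / f (B j) ^ 2) := by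
        rw [ea]
        field_simp
      have hd : 4 * a j + 27 * b j ≠ 0 := by
        rw [ed]
        exact mul_ne_zero hfD (div_ne_zero h2 (pow_ne_zero _ hfB))
      refine ⟨hd, ?_⟩
      rw [eq_div_iff hd, ed, ea]
      have ej : f (jK (A j) (B j)) = 6912 * f (A j) ^ 3 / (4 * f (A j) ^ 3 + 27 * f (B j) ^ 2) := by
        unfold jK
        rw [map_div₀]
        simp only [map_mul, map_add, map_pow, map_ofNat]
      rw [ej, ← mul_assoc, div_mul_cancel₀ _ hfD]
      field_simp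
    have hZe : ∀ᶠ j in (φ : Filter ℕ),
        f (zz (A j) (B j) (x j 1)) = (3 * b' j + 2 * a' j) / b' j := by
      filter_upwards [hAB', hb0', hab'] with j h1 h2 h3
      have hB : B j ≠ 0 := right_ne_zero_of_mul h1
      have hfB : f (B j) ≠ 0 := (map_ne_zero f).mpr hB
      rw [map_div₀, map_mul] at h3
      have e1 : (3 * b' j + 2 * a' j) / b' j = 3 + 2 * (a' j / b' j) := by
        field_simp
      rw [e1, ← h3]
      unfold zz
      rw [map_add, map_div₀, map_mul, map_mul, map_ofNat, map_ofNat]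
      ring
    -- heights
    obtain ⟨C, hC0, hC⟩ := hHTZ K
    have hht1 : ∀ᶠ j in (φ : Filter ℕ),
        mulHeight₁ (6912 * a j / (4 * a j + 27 * b j)) ≤ X j ^ (A0 : ℝ) := by
      filter_upwards [hJe] with j h1
      rw [← h1.2, hX]
      refine mul_le_exp _ ((log_ext f hA0 _).trans ?_)
      exact mul_le_mul_of_nonneg_left (hJ j) (Nat.cast_nonneg _)
    have hht2 : ∀ᶠ j in (φ : Filter ℕ),
        mulHeight₁ ((3 * b' j + 2 * a' j) / b' j) ≤ X j ^ ((A0 : ℝ) * ((2 + Ce) * C)) := by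
      filter_upwards [hZe, hAB', hCe, hHφ.eventually_ge_atTop 1] with j h1 h2 h3 h4
      rw [← h1, hX]
      refine mul_le_exp _ ((log_ext f hA0 _).trans ?_)
      rw [mul_assoc]
      refine mul_le_mul_of_nonneg_left ?_ (Nat.cast_nonneg _)
      refine (hC _ _ (hD j) (right_ne_zero_of_mul h2) _ _ _ (hS j) (he j)).trans ?_
      rw [mul_comm (2 + Ce) C, mul_assoc]
      refine mul_le_mul_of_nonneg_left ?_ hC0
      linarith
    obtain ⟨n1, m1, hn1', hm1', hm10, hq1⟩ := hMODQ M S P φ X _ _ _ hSp hXt hn1 hd1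
      (by filter_upwards [hJe] with j h1 using h1.1) hht1
    obtain ⟨n2, m2, hn2', hm2', hm20, hq2⟩ := hMODQ M S P φ X _ _ _ hSp hXt hn2 hb' hb0' hht2
    obtain ⟨Dn, hDn, hAR⟩ := hARI M S P φ X n1 m1 n2 m2 hSp hXt hn1' hm1' hn2' hm2' hm10 hm20
    refine ⟨Dn, hDn, ?_⟩
    intro ε hε
    filter_upwards [hAR ε hε, hJe, hZe, hq1, hq2] with j h1 h2 h3 h4 h5
    rw [h2.2, h3, h4, h5, ← hXl]
    exact h1

/-- the quadratic form at a basis vector -/
theorem qf_single {m : ℕ} (R : Matrix (Fin m) (Fin m) ℝ) (i : Fin m) :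
    qf R (Pi.single i 1) = R i i := by
  unfold qf
  rw [Finset.sum_eq_single i, Finset.sum_eq_single i]
  · simp
  · intro j _ hj
    rw [Pi.single_eq_of_ne hj]
    simp
  · intro h
    exact absurd (Finset.mem_univ _) h
  · intro j _ hj
    refine Finset.sum_eq_zero fun l _ => ?_
    rw [Pi.single_eq_of_ne hj]
    simp
  · intro h
    exact absurd (Finset.mem_univ _) h

/-- (FINL) -/
theorem FINL (hSVB : ST_SVB) (hPFX : ST_PFX) (hHC : ST_HC) (hKFP : ST_KFP) (hKDF : ST_KDF)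
    (hHTZ : ST_HTZ) (hSPQ : ST_SPQ) (hSPC : ST_SPC) (hMODQ : ST_MODQ) (hARI : ST_ARI)
    (hLSQ : ST_LSQ) (hLREG : ST_LREG) (hCREL : ST_CREL) (hLIMD : ST_LIMD) : ST_FINL := by
  classical
  intro K _ _ G t m M' hG hm
  by_contra hcon
  push Not at hcon
  choose A B hD X Y R hg hs hc h hh0 hh1 hM q1 q2 hlt using fun n : ℕ =>
    hcon (1 / ((n : ℝ) + 1)) (by positivity)
  have hHt : Tendsto (fun n => HK (A n) (B n)) atTop atTop :=
    Pool.Agent.Helper66.LS5.finl_tend hKDF hLREG K m hm A B X Y R hD hg hs hc hlt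
  obtain ⟨M, _, _, _, ⟨f⟩⟩ := exists_gal K
  obtain ⟨S, hSp, hSG⟩ := (hSVB K).2.2.2.2.2.2.2.2.2.2.2 G hG
  have hSf : ∀ g ∈ G, SV S (f (g : K)) := fun g hg =>
    ((hSVB K).2.2.2.2.2.2.2.2.2.2.1 M f S _).2 (hSG g hg)
  obtain ⟨P⟩ := hPFX M S hSp
  have hle : ((hyperfilter ℕ : Ultrafilter ℕ) : Filter ℕ) ≤ atTop := by
    rw [← Nat.cofinite_eq_atTop]
    exact hyperfilter_le_cofinite
  obtain ⟨φ, hφ⟩ : ∃ φ : Ultrafilter ℕ, φ = hyperfilter ℕ := ⟨_, rfl⟩
  rw [← hφ] at hle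
  have hHφ : Tendsto (fun n => HK (A n) (B n)) (φ : Filter ℕ) atTop := hHt.mono_left hle
  have hhe : ∀ ε : ℝ, 0 < ε → ∀ᶠ j in (φ : Filter ℕ), h j ≤ ε * HK (A j) (B j) := by
    intro ε hε
    filter_upwards [hHφ.eventually_ge_atTop 1, hle (eventually_ge_atTop ⌈2 / ε⌉₊)] with n h1 hn
    have h2 := hh1 n
    have h4 : 2 / ε ≤ n := (Nat.le_ceil _).trans (by exact_mod_cast hn)
    rw [div_le_iff₀ hε] at h4
    have h5 : (0 : ℝ) < (n : ℝ) + 1 := by positivity
    rw [one_div, inv_mul_eq_div, le_div_iff₀ h5] at h2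
    have h6 : h n * ((n : ℝ) + 1) ≤ (ε * HK (A n) (B n)) * ((n : ℝ) + 1) := by
      have h7 : 2 * HK (A n) (B n) ≤ n * ε * HK (A n) (B n) :=
        mul_le_mul_of_nonneg_right h4 (by linarith)
      have h8 : (0 : ℝ) ≤ ε * HK (A n) (B n) := mul_nonneg hε.le (by linarith)
      nlinarith
    exact le_of_mul_le_mul_right h6 h5
  have hne : ∀ i : Fin m, (Pi.single i 1 : Fin m → ℤ) ≠ 0 := fun i =>
    Pi.single_ne_zero_iff.mpr one_ne_zero
  have hDi : ∀ i : Fin m, ∃ D : ℕ, 1 ≤ D ∧ ∀ ε : ℝ, 0 < ε → ∀ᶠ j in (φ : Filter ℕ),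
      ∀ T : Finset (FinitePlace M), (∀ V ∈ T, Aw S V ∧ 0 < Real.log (V (f (jK (A j) (B j))))) →
        ∃ m' : FinitePlace M → ℤ, ∑ V ∈ T,
          |D * (12 * aV V (f (jK (A j) (B j))) (f (zz (A j) (B j) (X j (Pi.single i 1))))) -
            m' V * Real.log (V (f (jK (A j) (B j))))| ≤ ε * HK (A j) (B j) := by
    intro i
    obtain ⟨D, hD1, hD2⟩ := exD hHC hKFP hKDF hHTZ hSPQ hSPC hMODQ hARI K M f S P φ G t A B
      (fun j n => X j (n • (Pi.single i 1 : Fin m → ℤ)))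
      (fun j n => Y j (n • (Pi.single i 1 : Fin m → ℤ))) (fun j => R j i i) h (2 * |M'|) hSp hSf hD
      (fun n => hLSQ K m 0 (A n) (B n) (X n) (Y n) (hg n) _ (hne i))
      (fun n => by
        have := hc n _ (hne i)
        rwa [qf_single] at this)
      hHφ
      (by
        filter_upwards [hHφ.eventually_ge_atTop 1] with j hj
        refine (hM j i).trans ?_
        have h2 : M' * (1 + HK (A j) (B j)) ≤ |M'| * (1 + HK (A j) (B j)) :=
          mul_le_mul_of_nonneg_right (le_abs_self M') (by linarith)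
        have h3 : |M'| * (1 + HK (A j) (B j)) ≤ |M'| * (2 * HK (A j) (B j)) :=
          mul_le_mul_of_nonneg_left (by linarith) (abs_nonneg M')
        linarith)
      hhe q1 (fun n => by
        have := q2 n i
        rwa [← one_smul ℕ (Pi.single i 1 : Fin m → ℤ)] at this)
    refine ⟨D, hD1, fun ε hε => ?_⟩
    filter_upwards [hD2 ε hε] with j hj
    intro T hT
    obtain ⟨m', hm'⟩ := hj T hT
    refine ⟨m', ?_⟩
    rw [one_smul] at hm'
    exact hm'
  choose D hD1 hD2 using hDi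
  have hDD : 1 ≤ ∏ i, D i := Finset.one_le_prod' fun i _ => hD1 i
  obtain ⟨c₀, hc₀, hlow⟩ := hCREL K M f S φ m A B X Y (fun j => qf (R j)) (∏ i, D i) hSp
    (fun j => ⟨hD j, hg j, hc j⟩) hHφ hDD
    (by
      intro i ε hε
      obtain ⟨Q, hQ⟩ : ∃ Q : ℕ, Q = ∏ l ∈ Finset.univ.erase i, D l := ⟨_, rfl⟩
      have hQ1 : 1 ≤ Q := by
        rw [hQ]
        exact Finset.one_le_prod' fun l _ => hD1 l
      have hQr : (0 : ℝ) < Q := by exact_mod_cast hQ1
      have hQD : ((∏ l, D l : ℕ) : ℝ) = Q * D i := by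
        rw [hQ, ← Nat.cast_mul, Finset.prod_erase_mul _ _ (Finset.mem_univ i)]
      filter_upwards [hD2 i (ε / Q) (div_pos hε hQr)] with j hj
      intro T hT
      obtain ⟨m', hm'⟩ := hj T hT
      refine ⟨fun V => Q * m' V, ?_⟩
      have e1 : ∀ V ∈ T, |((∏ l, D l : ℕ) : ℝ) * (12 * aV V (f (jK (A j) (B j)))
          (f (zz (A j) (B j) (X j (Pi.single i 1))))) -
          (((Q : ℤ) * m' V : ℤ) : ℝ) * Real.log (V (f (jK (A j) (B j))))| =
          Q * |D i * (12 * aV V (f (jK (A j) (B j)))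
            (f (zz (A j) (B j) (X j (Pi.single i 1))))) -
            m' V * Real.log (V (f (jK (A j) (B j))))| := by
        intro V _
        rw [hQD, ← abs_of_pos hQr, ← abs_mul, abs_of_pos hQr]
        congr 1
        push_cast
        ring
      rw [Finset.sum_congr rfl e1, ← Finset.mul_sum]
      calc (Q : ℝ) * _ ≤ Q * (ε / Q * HK (A j) (B j)) := mul_le_mul_of_nonneg_left hm' hQr.le
        _ = ε * HK (A j) (B j) := by field_simp)
  exact Pool.Agent.Helper66.LS5.finl_end hLIMD K m M' φ hle A B X R hs hc hM hlt hHφ c₀ hc₀ hlow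

end Pool.Agent.Helper27.LS5
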